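import Mathlib
import Pool.Agent.H440R3.Defs
import Pool.Agent.H440R3.Main

set_option autoImplicit false

namespace Pool.Agent.Results.MP_7de521_nt.PadicFails

open Polynomial Pool.Agent.H440R3

/-- For the splitting field `K` of `X ^ 5 - 25 X + 5` over `ℚ` and for every prime `p`, the
`p`-adic part of the expected answer fails for the torus `R_{K/ℚ}(G_m)`. -/
theorem result : ∃ (K : Type) (_ : Field K) (_ : NumberField K),
    Polynomial.IsSplittingField ℚ K (X ^ 5 - 25 * X + 5 : ℚ[X]) ∧
      ∀ (p : ℕ) [Fact p.Prime], ¬ PadicPart p K := by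
  refine ⟨KK, inferInstance, inferInstance, ?_, fun p _ => not_PadicPart_KK p⟩
  have h : (X ^ 5 - 25 * X + 5 : ℚ[X]) = Φ ℚ := by
    unfold Φ
    rw [map_natCast, map_natCast]
    rfl
  rw [h]
  have h2 := Polynomial.IsSplittingField.splittingField (Φ ℚ)
  convert h2
  exact Subsingleton.elim _ _

end Pool.Agent.Results.MP_7de521_nt.PadicFails
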