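import Mathlib
import Pool.Agent.H492R2.Tor.Defs
import Pool.Agent.H492R2.Tor.Final

set_option autoImplicit false

/-!
# The real part of the expected answer fails for `R_{K/ℚ}(G_m)`

`K` is the splitting field of `X ^ 4 + X + 1` (a totally complex field of degree `24`).  The
finitely generated group is generated by three elements whose logarithmic vectors are governed by
the rank `2` skew-symmetric matrix with entries `ℓ₀, ℓ₁, ℓ₂`, where
`ℓ_x = 4 log |α - x| - log f(x)` and `f = X ^ 4 + X + 1`.
-/

namespace Pool.Agent.Results.MP_7de521_nt.RealFails

open Polynomial Pool.Agent.H492R2.Tor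

/-- For every number field `K` over which `X ^ 4 + X + 1` splits, the real part of the expected
answer fails for `R_{K/ℚ}(G_m)`; so it does not hold for all number fields. -/
theorem result :
    (∀ (K : Type) [Field K] [NumberField K],
      ((X ^ 4 + X + 1 : ℚ[X]).map (algebraMap ℚ K)).Splits → ¬ ExpectedAnswerReal K) ∧
    ¬ ∀ (K : Type) [Field K] [NumberField K], ExpectedAnswerReal K :=
  ⟨fun _ _ _ hs => not_expected_of_splits hs, fun h => not_expected_KK (h KK)⟩

end Pool.Agent.Results.MP_7de521_nt.RealFails
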