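import Mathlib
import Pool.Agent.H421R2.RealExampleB

/-!
# The real part of the expected answer fails for `R_{K/ℚ}(𝔾_m)`

For a number field `K` let `A = R_{K/ℚ}(𝔾_m)` be the Weil restriction torus. We define its groups
of points, its algebraic subgroups over `ℚ`, the topology of `A(ℝ)`, the closure of a subgroup
`L` of `A(ℚ) = Kˣ` in `A(ℝ)` and its identity component, and we show that the real part of the
expected answer fails for a suitable `K`.

The example: `K` contains roots `θ₁, θ₂, θ₃` of `X ^ 6 - 4 X ^ 2 - 2` with different squares;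
with `P = (1 - θ) / (1 + θ)`, `Q = (2 - θ) / (2 + θ)`, `R = (3 - θ) / (3 + θ)`, the group `L` is
generated by `P(θ₂) Q(θ₃)`, `P(θ₁)⁻¹ R(θ₃)`, `Q(θ₁)⁻¹ R(θ₂)⁻¹`: it has rank `3`, but its
archimedean logarithmic vectors span a real plane without nonzero rational vectors.
-/

open scoped TensorProduct NumberField

namespace Pool.Agent.Results.MP_7de521_nt.RealPartFails

noncomputable section

/-- The group `A(R) = (R ⊗[ℚ] K)ˣ` of `R`-points of the torus `A = R_{K/ℚ}(𝔾_m)`, for a
commutative `ℚ`-algebra `R`. -/
def Points (K : Type) [Field K] [NumberField K] (R : Type) [CommRing R] [Algebra ℚ R] : Type :=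
  (R ⊗[ℚ] K)ˣ

instance instCommGroupPoints (K : Type) [Field K] [NumberField K] (R : Type) [CommRing R]
    [Algebra ℚ R] : CommGroup (Points K R) :=
  (inferInstance : CommGroup (R ⊗[ℚ] K)ˣ)

/-- The coordinates of a point of `A(R) ⊆ R ⊗[ℚ] K` with respect to a fixed `ℚ`-basis of `K`
(an integral basis). -/
def coord (K : Type) [Field K] [NumberField K] (R : Type) [CommRing R] [Algebra ℚ R]
    (u : Points K R) (i : Module.Free.ChooseBasisIndex ℤ (𝓞 K)) : R :=
  (Algebra.TensorProduct.basis R (NumberField.integralBasis K)).repr (Units.val u) i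

/-- An algebraic subgroup `B`, defined over `ℚ`, of the torus `A = R_{K/ℚ}(𝔾_m)`: a set `eqs` of
polynomials with rational coefficients in the coordinates such that, for every commutative
`ℚ`-algebra `R`, the common zeros of these polynomials in `A(R)` form a subgroup `B(R)` of
`A(R)`. -/
structure AlgSubgroup (K : Type) [Field K] [NumberField K] where
  /-- the equations of `B` -/
  eqs : Set (MvPolynomial (Module.Free.ChooseBasisIndex ℤ (𝓞 K)) ℚ)
  /-- the group `B(R)` -/
  points : ∀ (R : Type) [CommRing R] [Algebra ℚ R], Subgroup (Points K R)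
  /-- `B(R)` is the set of zeros of the equations in `A(R)` -/
  mem_points : ∀ (R : Type) [CommRing R] [Algebra ℚ R] (u : Points K R),
    u ∈ points R ↔ ∀ f ∈ eqs, MvPolynomial.aeval (coord K R u) f = 0

/-- The topology of `A(ℝ) = (ℝ ⊗[ℚ] K)ˣ`: the topology of the unit group of the topological ring
`ℝ ⊗[ℚ] K`, which has its topology of a finite-dimensional real vector space. -/
instance instTopologicalSpacePoints (K : Type) [Field K] [NumberField K] :
    TopologicalSpace (Points K ℝ) :=
  letI : TopologicalSpace (ℝ ⊗[ℚ] K) := moduleTopology ℝ (ℝ ⊗[ℚ] K)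
  (inferInstance : TopologicalSpace (ℝ ⊗[ℚ] K)ˣ)

instance instIsTopologicalGroupPoints (K : Type) [Field K] [NumberField K] :
    IsTopologicalGroup (Points K ℝ) :=
  (inferInstance : IsTopologicalGroup (ℝ ⊗[ℚ] K)ˣ)

/-- The inclusion `A(ℚ) = Kˣ → A(ℝ)`, `x ↦ 1 ⊗ x`. -/
def toReal (K : Type) [Field K] [NumberField K] : Kˣ →* Points K ℝ :=
  Units.map (Algebra.TensorProduct.includeRight : K →ₐ[ℚ] ℝ ⊗[ℚ] K).toMonoidHom

/-- The closure in `A(ℝ)` of a subgroup `L` of `A(ℚ) = Kˣ`. -/
def closure (K : Type) [Field K] [NumberField K] (L : Subgroup Kˣ) : Subgroup (Points K ℝ) :=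
  (L.map (toReal K)).topologicalClosure

/-- The identity component of a subgroup `H` of `A(ℝ)`, as a subgroup of `A(ℝ)`. -/
def identityComponent (K : Type) [Field K] [NumberField K] (H : Subgroup (Points K ℝ)) :
    Subgroup (Points K ℝ) :=
  (Subgroup.connectedComponentOfOne H).map H.subtype

/-- The real part of the expected answer for `A = R_{K/ℚ}(𝔾_m)`: for every finitely generated
subgroup `L` of `A(ℚ) = Kˣ`, the identity component of the closure of `L` in `A(ℝ)` is a subgroup
of finite index of `B(ℝ)` for some algebraic subgroup `B` of `A` defined over `ℚ`. -/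
def RealPartHolds (K : Type) [Field K] [NumberField K] : Prop :=
  ∀ L : Subgroup Kˣ, L.FG → ∃ B : AlgSubgroup K,
    identityComponent K (closure K L) ≤ B.points ℝ ∧
      (identityComponent K (closure K L)).relIndex (B.points ℝ) ≠ 0

/-- There is a number field `K` such that the real part of the expected answer fails for
`A = R_{K/ℚ}(𝔾_m)`. -/
theorem result : ∃ (K : Type) (_ : Field K) (_ : NumberField K), ¬ RealPartHolds K := by
  obtain ⟨K, hF, hN, h⟩ := H421R2.exists_not_realExpected
  refine ⟨K, hF, hN, fun hK => h fun L hL => ?_⟩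
  obtain ⟨B, hB1, hB2⟩ := hK L hL
  exact ⟨⟨B.eqs, fun R _ _ => B.points R, fun R _ _ u => B.mem_points R u⟩, hB1, hB2⟩

end

end Pool.Agent.Results.MP_7de521_nt.RealPartFails
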